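import Pool.Agent.Helper58.Cube.Perimeter

/-!
The minimal perimeter of central hyperplane sections of the cube `[-1,1]^n`.

`sectionPerimeter u` (see `Pool.Agent.Helper58.Cube.Perimeter`) is the `(n-2)`-dimensional Hausdorff
measure (normalised to agree with Lebesgue measure on `(n-2)`-dimensional Euclidean spaces,
`μHE[n - 2]` in Mathlib) of the boundary, relative to the hyperplane `u^⊥`, of `u^⊥ ∩ [-1,1]^n`.
-/

set_option autoImplicit false

open MeasureTheory
open scoped ENNReal

namespace Pool.Agent.Results.MP_484e46_gt.MinimalPerimeter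

open Helper58.Cube

/-- For every `n ≥ 2` the minimum of the perimeter of `u^⊥ ∩ [-1,1]^n` over unit vectors `u` is
`(n-1) * 2^(n-1)`. For `n ≥ 3` it is attained exactly at `u = ±e_i`, for `n = 2` at every unit
vector. -/
theorem result {n : ℕ} (hn : 2 ≤ n) :
    IsLeast (sectionPerimeter '' {u : EuclideanSpace ℝ (Fin n) | ‖u‖ = 1})
      (((n - 1) * 2 ^ (n - 1) : ℕ) : ℝ≥0∞) ∧
    ∀ u : EuclideanSpace ℝ (Fin n), ‖u‖ = 1 →
      (sectionPerimeter u = (((n - 1) * 2 ^ (n - 1) : ℕ) : ℝ≥0∞) ↔
        n = 2 ∨ ∃ i, u = EuclideanSpace.single i 1 ∨ u = EuclideanSpace.single i (-1)) := by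
  obtain ⟨m, rfl⟩ : ∃ m, n = m + 2 := ⟨n - 2, by omega⟩
  rw [show m + 2 - 1 = m + 1 by omega]
  have hPP : (sectionPerimeter : EuclideanSpace ℝ (Fin (m + 2)) → ℝ≥0∞) = perimeter :=
    funext sectionPerimeter_eq
  rw [hPP]
  -- value at coordinate vectors
  have hcoord : ∀ (i : Fin (m + 2)) (c : ℝ), |c| = 1 →
      perimeter (EuclideanSpace.single i c) = (((m + 1) * 2 ^ (m + 1) : ℕ) : ℝ≥0∞) := by
    intro i c hc
    apply le_antisymm
    · refine (Geom.perimeter_single_le i c hc).trans (le_of_eq ?_)
      push_cast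
      rfl
    · apply perimeter_ge_coord _ _ i
      · simpa using hc
      · simpa using hc
  rcases Nat.eq_zero_or_pos m with rfl | hm
  · -- the plane
    have h2 : ∀ u : EuclideanSpace ℝ (Fin 2), ‖u‖ = 1 → perimeter u = 2 := Geom.perimeter_two
    have e : (((0 + 1) * 2 ^ (0 + 1) : ℕ) : ℝ≥0∞) = 2 := by norm_num
    rw [e]
    refine ⟨⟨⟨EuclideanSpace.single 0 1, by simp, h2 _ (by simp)⟩, ?_⟩, fun u hu => ?_⟩
    · rintro _ ⟨u, hu, rfl⟩
      exact (h2 u hu).ge
    · exact ⟨fun _ => Or.inl rfl, fun _ => h2 u hu⟩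
  · have hge : ∀ u : EuclideanSpace ℝ (Fin (m + 2)), ‖u‖ = 1 →
        (((m + 1) * 2 ^ (m + 1) : ℕ) : ℝ≥0∞) ≤ perimeter u := by
      intro u hu
      by_cases h : ∀ k, |u k| < 1
      · exact (perimeter_gt hm u hu h).le
      · push Not at h
        obtain ⟨k, hk⟩ := h
        have h1 : |u k| ≤ 1 := by
          have := PiLp.norm_apply_le u k
          rwa [hu] at this
        exact perimeter_ge_coord u hu k (le_antisymm h1 hk)
    refine ⟨⟨⟨EuclideanSpace.single 0 1, by simp, hcoord 0 1 (by simp)⟩, ?_⟩, fun u hu => ?_⟩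
    · rintro _ ⟨u, hu, rfl⟩
      exact hge u hu
    · constructor
      · intro hP
        right
        by_cases h : ∀ k, |u k| < 1
        · exact absurd hP (perimeter_gt hm u hu h).ne'
        · push Not at h
          obtain ⟨k, hk⟩ := h
          have h1 : |u k| ≤ 1 := by
            have := PiLp.norm_apply_le u k
            rwa [hu] at this
          have hk1 : |u k| = 1 := le_antisymm h1 hk
          have hsq : u k ^ 2 = 1 := by rw [← sq_abs, hk1]; norm_num
          have hz : ∀ j, u (k.succAbove j) = 0 := by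
            have hsum := norm_sq_split u hu k
            have h0 : ∑ j, u (k.succAbove j) ^ 2 = 0 := by linarith
            intro j
            have := (Finset.sum_eq_zero_iff_of_nonneg
              (fun j _ => sq_nonneg (u (k.succAbove j)))).1 h0 j (Finset.mem_univ j)
            exact pow_eq_zero_iff (two_ne_zero) |>.1 this
          refine ⟨k, ?_⟩
          have hext : ∀ c : ℝ, u k = c → u = EuclideanSpace.single k c := by
            intro c hc
            ext j
            rcases Fin.eq_self_or_eq_succAbove k j with rfl | ⟨j', rfl⟩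
            · simpa using hc
            · rw [hz j']
              simp
          rcases eq_or_eq_neg_of_abs_eq hk1 with h2 | h2
          · exact Or.inl (hext 1 h2)
          · exact Or.inr (hext (-1) h2)
      · rintro (h | ⟨i, rfl | rfl⟩)
        · omega
        · exact hcoord i 1 (by simp)
        · exact hcoord i (-1) (by simp)

end Pool.Agent.Results.MP_484e46_gt.MinimalPerimeter
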